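import Pool.Agent.Lib.MP_af5b7f_an.Defs
import Pool.Agent.Lib.MP_af5b7f_an.Final

set_option autoImplicit false

open Filter Pool.Agent.Lib.MP_af5b7f_an

namespace Pool.Agent.Results.MP_af5b7f_an.Counter

/-- Dimension `2n = 6`, `Ω` the open ball of radius `2`, `V₀ = 1`.  There is a sequence of
solutions in the blow-up case with `S₁ = {0}` and `S_φ = {e}` non-empty (and `u_k(e) → +∞`)
whose blow-up at `0` is not spherical. -/
theorem result :
    ∃ (u V : ℕ → EuclideanSpace ℝ (Fin 6) → ℝ) (φ : EuclideanSpace ℝ (Fin 6) → ℝ) (β : ℕ → ℝ),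
      IsSolutionSeq 3 (Metric.ball 0 2) u V (fun _ => 1) ∧
      IsBlowUp 3 (Metric.ball 0 2) u V φ β ∧
      concSet 3 (Metric.ball 0 2) u V = {0} ∧
      zeroSet (Metric.ball 0 2) (concSet 3 (Metric.ball 0 2) u V) φ =
        {EuclideanSpace.single 2 1} ∧
      Tendsto (fun k => u k (EuclideanSpace.single 2 1)) atTop atTop ∧
      ¬ IsSpherical 3 u 1 0 :=
  counterexample

end Pool.Agent.Results.MP_af5b7f_an.Counter
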