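import Pool.Agent.Lib.MP_af5b7f_an.Defs
import Pool.Agent.Lib.MP_af5b7f_an.P.Final

/-! A radial non-spherical blow-up with a peak at the origin beside polyharmonic blow-up on the unit
sphere, in every dimension `2 n ≥ 8`. -/

set_option autoImplicit false

open Filter Topology Pool.Agent.Lib.MP_af5b7f_an

namespace Pool.Agent.Results.MP_af5b7f_an.Peak

theorem result (n : ℕ) (hn : 4 ≤ n) (Λ : ℝ) (hΛ : lambdaOne n / 2 ≤ Λ) (hΛ' : Λ < lambdaOne n) :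
    ∃ (u V : ℕ → EuclideanSpace ℝ (Fin (2 * n)) → ℝ) (β : ℕ → ℝ),
      IsSolutionSeq n (Metric.ball 0 2) u V (fun _ => 1) ∧
      (∀ k x y, ‖x‖ = ‖y‖ → u k x = u k y ∧ V k x = V k y) ∧ (∀ k x, 0 < V k x) ∧
      IsBlowUp n (Metric.ball 0 2) u V (fun x => -(‖x‖ ^ 2 * (1 - ‖x‖ ^ 2) ^ 2)) β ∧
      concSet n (Metric.ball 0 2) u V = {0} ∧
      zeroSet (Metric.ball 0 2) (concSet n (Metric.ball 0 2) u V)
        (fun x => -(‖x‖ ^ 2 * (1 - ‖x‖ ^ 2) ^ 2)) = Metric.sphere 0 1 ∧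
      (∀ x ∈ Metric.sphere 0 1, Tendsto (fun k => u k x) atTop atTop) ∧
      Tendsto (fun k => u k 0) atTop atTop ∧ (∀ k x, ‖x‖ ≤ 1 / 2 → u k x ≤ u k 0) ∧
      (∀ r : ℝ, 0 < r → r ≤ 2 → Tendsto
        (fun k => ∫ y in Metric.ball 0 r, V k y * Real.exp (2 * n * u k y)) atTop (𝓝 Λ)) ∧
      ¬ IsSpherical n u 1 0 :=
  P.peak n hn Λ hΛ hΛ'

end Pool.Agent.Results.MP_af5b7f_an.Peak
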